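import Pool.Agent.H463.PT.Ins
import Pool.Agent.H463.QE.FinX

/-!
# The symbols of the primes of a parameter, and of its twist by a prime `≡ 1 mod 4`
-/

set_option autoImplicit false
set_option linter.unusedSectionVars false

attribute [-instance] DivisionRing.toRatAlgebra

open NumberField IsDedekindDomain

namespace Pool.Agent.H463.PT

open Pool.Agent.H463.QE
open Pool.Agent.R426.QC Pool.Agent.R426.QD
open Pool.Agent.Y698 Pool.Agent.Y698.SG
open Pool.Agent.W192.HK (sp)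

section

variable {R : Type} [CommRing R] (e : RR ≃+* R)

lemma ns_e (x y : RR) : ns (e x) (e y) = ns x y := by
  unfold ns
  have h1 : (∃ z : R, e x ∣ z ^ 2 - e y) ↔ ∃ z : RR, x ∣ z ^ 2 - y := by
    constructor
    · rintro ⟨z, hz⟩
      obtain ⟨z, rfl⟩ := e.surjective z
      refine ⟨z, ?_⟩
      rw [← map_pow, ← map_sub] at hz
      exact (map_dvd_iff e).1 hz
    · rintro ⟨z, hz⟩
      refine ⟨e z, ?_⟩
      rw [← map_pow, ← map_sub]
      exact (map_dvd_iff e).2 hz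
  by_cases h2 : ∃ z : RR, x ∣ z ^ 2 - y
  · rw [if_pos h2, if_pos (h1.2 h2)]
  · rw [if_neg h2, if_neg fun h3 => h2 (h1.1 h3)]

lemma ns_em1 (x : RR) : ns (e x) (-1) = ns x (-1) := by
  have e1 : (-1 : R) = e (-1) := by rw [map_neg, map_one]
  rw [e1, ns_e]

lemma tp_ns {ϖ : RR} (h : Pn ϖ) : ns ϖ (-1) = tp ϖ := by
  unfold tp
  exact ns_lg (neg_one_notin h.pr)

variable {e} {D : RR} {S : Finset RR} {P : Finset R}

lemma mem_P (hf : Fs S (fun x => x)) (hD : D = ∏ ϖ ∈ S, ϖ) (hP : IsP (e aR) (e D) P) (q : RR) :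
    e q ∈ P ↔ (q = -fR ∨ q ∈ S) := by
  rw [mem_ins hf hD, hP]
  have h1 : (2 * e aR - 1) * e D = e ((2 * aR - 1) * D) := by
    rw [map_mul, map_sub, map_mul, map_one, map_ofNat]
  have h2 : e aR ^ 2 = e (aR ^ 2) := (map_pow e _ _).symm
  have h3 : e q - 1 = e (q - 1) := by rw [map_sub, map_one]
  rw [h1, h2, h3]
  have h4 : ∀ x y : RR, e x ∣ e y ↔ x ∣ y := fun x y => map_dvd_iff e
  rw [h4, h4]
  exact and_congr_left fun _ => (MulEquiv.prime_iff e.toMulEquiv)

lemma neg_notin (hf : Fs S (fun x => x)) : (-fR : RR) ∉ S := by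
  intro h
  apply hf.h7 _ h
  rw [neg_mem_iff]
  exact Ideal.mem_span_singleton_self _

/-- the primes of the parameter -/
lemma exists_phi (hf : Fs S (fun x => x)) (hD : D = ∏ ϖ ∈ S, ϖ) (hP : IsP (e aR) (e D) P) :
    ∃ φ : se S ≃ P, ∀ o, (φ o : R) = e (pe (fun x : RR => x) (o : Option RR)) := by
  have hmem := mem_P hf hD hP
  have hnf := neg_notin hf
  have hpe : ∀ o : se S, e (pe (fun x : RR => x) (o : Option RR)) ∈ P := by
    rintro ⟨o, ho⟩
    rcases o with _ | i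
    · exact (hmem _).2 (Or.inl rfl)
    · exact (hmem _).2 (Or.inr (mem_se.1 ho))
  have hbij : Function.Bijective
      (fun o : se S => (⟨e (pe (fun x : RR => x) (o : Option RR)), hpe o⟩ : P)) := by
    constructor
    · rintro ⟨o, ho⟩ ⟨o', ho'⟩ h
      have h1 : e (pe (fun x : RR => x) o) = e (pe (fun x : RR => x) o') := congrArg Subtype.val h
      have h2 := e.injective h1
      apply Subtype.ext
      show o = o'
      rcases o with _ | i <;> rcases o' with _ | i'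
      · rfl
      · exfalso
        have h3 : -fR = i' := h2
        exact hnf (by rw [h3]; exact mem_se.1 ho')
      · exfalso
        have h3 : i = -fR := h2
        exact hnf (by rw [← h3]; exact mem_se.1 ho)
      · have h3 : i = i' := h2
        rw [h3]
    · rintro ⟨p, hp⟩
      obtain ⟨q, rfl⟩ := e.surjective p
      rcases (hmem q).1 hp with h | h
      · exact ⟨⟨none, none_se⟩, Subtype.ext (congrArg e h.symm)⟩
      · exact ⟨⟨some q, mem_se.2 h⟩, rfl⟩
  exact ⟨Equiv.ofBijective _ hbij, fun o => rfl⟩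

/-- **the symbols** -/
theorem sys_of (hf : Fs S (fun x => x)) (hD : D = ∏ ϖ ∈ S, ϖ) (hP : IsP (e aR) (e D) P) :
    Sys P := by
  classical
  obtain ⟨φ, hφ⟩ := exists_phi hf hD hP
  have ht : ∀ o : se S, ns (φ o : R) (-1) = mt (pe (fun x : RR => x)) (o : Option RR) := by
    intro o
    rw [hφ, ns_em1, tp_ns (hf.fa.pn o o.2)]
    rfl
  have hr : ∀ o o' : se S, o ≠ o' →
      ns (φ o' : R) (φ o : R) = mr (pe (fun x : RR => x)) (o : Option RR) (o' : Option RR) := by
    intro o o' hoo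
    rw [hφ, hφ, ns_e]
    unfold mr
    rw [ns_lg (hf.fa.ne o o.2 o' o'.2 (fun h => hoo (Subtype.ext h)))]
  refine ⟨?_, fun p hp r hr' hpr => ?_⟩
  · rw [← Finset.sum_coe_sort P fun p => ns p (-1), ← Equiv.sum_comp φ, ← hf.sr.od,
      ← Finset.sum_coe_sort (se S)]
    exact Finset.sum_congr rfl fun o _ => ht o
  · obtain ⟨o, ho⟩ := φ.surjective ⟨p, hp⟩
    obtain ⟨o', ho'⟩ := φ.surjective ⟨r, hr'⟩
    have hp1 : p = (φ o : R) := by rw [ho]
    have hr1 : r = (φ o' : R) := by rw [ho']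
    have hoo : o ≠ o' := by
      rintro rfl
      exact hpr (hp1.trans hr1.symm)
    rw [hp1, hr1, hr o o' hoo, hr o' o (Ne.symm hoo), ht, ht]
    have h1 := hf.sr.sy o o.2 o' o'.2 (fun h => hoo (Subtype.ext h))
    rw [h1]
    have h2 := z2 (mr (pe fun x : RR => x) (o : Option RR) (o' : Option RR))
    linear_combination h2

/-- the twist by a prime `≡ 1 mod 4` -/
theorem fs_insert (hf : Fs S (fun x => x)) {ϖ : RR} (hϖ : Pm ϖ) (hS : ϖ ∉ S) :
    ϖ ≠ -fR ∧ Fs (insert ϖ S) (fun x => x) ∧ ∏ x ∈ insert ϖ S, x = (∏ x ∈ S, x) * ϖ := by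
  classical
  have hnf : ϖ ≠ -fR := by
    rintro rfl
    have h1 := tp_pm hϖ
    rw [tp_fR] at h1
    exact one_ne_zero h1
  have hpn : Pn ϖ := by
    refine ⟨hϖ.pr, fun h2 => ?_, r4_m4 hϖ.m4⟩
    obtain ⟨u, hu⟩ := hϖ.m4
    apply hϖ.pr.not_isUnit
    have e1 : (1 : RR) = ϖ - 2 * (2 * u) := by rw [hu]; ring
    exact isUnit_of_dvd_one (by rw [e1]; exact dvd_sub dvd_rfl (h2.mul_right _))
  have hall : ∀ x ∈ insert ϖ S, Pn x := by
    intro x hx
    rcases Finset.mem_insert.1 hx with rfl | h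
    · exact hpn
    · exact hf.e.fa.pn x h
  have h7 : ∀ x ∈ insert ϖ S, x ∉ sp fR := by
    intro x hx
    rcases Finset.mem_insert.1 hx with rfl | h
    · have := pn_ne hpn pn_fR hnf
      rwa [show sp (-fR) = sp fR from Ideal.span_singleton_neg fR] at this
    · exact hf.h7 x h
  refine ⟨hnf, ⟨⟨⟨hall, fun i hi j hj hij => pn_ne (hall i hi) (hall j hj) hij⟩, ?_⟩, h7⟩, ?_⟩
  · rw [Finset.sum_insert hS, tp_pm hϖ, hf.e.even, add_zero]
  · rw [Finset.prod_insert hS, mul_comm]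

open scoped Classical in
/-- the set of the primes of the twist -/
lemma isP_insert (hf : Fs S (fun x => x)) (hD : D = ∏ ϖ ∈ S, ϖ) (hP : IsP (e aR) (e D) P)
    {ϖ : RR} (hϖ : Pm ϖ) (hS : ϖ ∉ S) : IsP (e aR) (e (D * ϖ)) (insert (e ϖ) P) := by
  obtain ⟨hnf, hf', hprod⟩ := fs_insert hf hϖ hS
  intro p
  obtain ⟨q, rfl⟩ := e.surjective p
  have h1 : (2 * e aR - 1) * e (D * ϖ) = e ((2 * aR - 1) * (D * ϖ)) := by
    rw [map_mul e (2 * aR - 1), map_sub, map_mul e 2, map_one, map_ofNat]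
  have h2 : e aR ^ 2 = e (aR ^ 2) := (map_pow e _ _).symm
  have h3 : e q - 1 = e (q - 1) := by rw [map_sub, map_one]
  rw [h1, h2, h3, map_dvd_iff e, map_dvd_iff e, Finset.mem_insert, mem_P hf hD hP]
  have h4 := mem_ins hf' (D := D * ϖ) (by rw [hprod, hD]) q
  rw [show (Prime (e q) ↔ Prime q) from MulEquiv.prime_iff e.toMulEquiv, ← h4, Finset.mem_insert]
  constructor
  · rintro (h | h | h)
    · exact Or.inr (Or.inl (e.injective h))
    · exact Or.inl h
    · exact Or.inr (Or.inr h)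
  · rintro (h | h | h)
    · exact Or.inr (Or.inl h)
    · exact Or.inl (by rw [h])
    · exact Or.inr (Or.inr h)

open scoped Classical in
/-- **the determinant of the twist** -/
theorem det_twist (hf : Fs S (fun x => x)) (hD : D = ∏ ϖ ∈ S, ϖ) (hP : IsP (e aR) (e D) P)
    {ϖ : RR} (hϖ : Pm ϖ) (hS : ϖ ∉ S) :
    (MP (insert (e ϖ) P)).det = (MP P +
      Matrix.diagonal ((fun p : P => ns (e ϖ) (p : R)) + fun p : P => ns (p : R) (-1))).det := by
  obtain ⟨hnf, hf', hprod⟩ := fs_insert hf hϖ hS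
  have hP' := isP_insert hf hD hP hϖ hS
  have hs' := sys_of hf' (by rw [hprod, hD] : D * ϖ = _) hP'
  have hq0 : ns (e ϖ) (-1) = 0 := by
    rw [ns_em1, tp_ns (hf'.e.fa.pn ϖ (Finset.mem_insert_self _ _)), tp_pm hϖ]
  have hq : e ϖ ∉ P := by
    rw [mem_P hf hD hP]
    rintro (h | h)
    · exact hnf h
    · exact hS h
  refine det_insert (sys_of hf hD hP) hq hq0 fun p hp => ?_
  have hne : e ϖ ≠ p := fun h => hq (h ▸ hp)
  have h1 := hs'.rcp _ (Finset.mem_insert_self _ _) p (Finset.mem_insert_of_mem hp) hne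
  rw [hq0, zero_mul] at h1
  have h2 := z2 (ns (e ϖ) p)
  linear_combination h1 - h2

end

end Pool.Agent.H463.PT
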