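import Pool.Agent.H463.PT.Lim

/-!
# The twists of a twist by the primes `1 + 4 x`
-/

set_option autoImplicit false
set_option linter.unusedSectionVars false
set_option linter.unusedVariables false

attribute [-instance] DivisionRing.toRatAlgebra

open NumberField IsDedekindDomain Filter Topology

namespace Pool.Agent.H463.PT

open Pool.Agent.H463.QE
open Pool.Agent.R426.QC Pool.Agent.R426.QD
open Pool.Agent.Y698 Pool.Agent.Y698.SG

section

variable {K : Type} [Field K] [NumberField K] {e : RR ≃+* 𝓞 K} {a : 𝓞 K}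

lemma isP_e (hea : e aR = a) {J : RR} {P : Finset (𝓞 K)} (hP : IsP a (1 + 4 * e J) P) :
    IsP (e aR) (e (1 + 4 * J)) P := by
  rw [e14, hea]
  exact hP

open scoped Classical in
/-- the twist by a prime -/
theorem twist (hea : e aR = a) {J : RR} (hsq : Squarefree ((2 * a - 1) * (1 + 4 * e J)))
    {P : Finset (𝓞 K)} (hP : IsP a (1 + 4 * e J) P) {x : RR} (hx : Prime (1 + 4 * e x))
    (hxP : 1 + 4 * e x ∉ P) :
    Squarefree ((2 * a - 1) * (1 + 4 * e (J + x + 4 * J * x))) ∧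
    IsP a (1 + 4 * e (J + x + 4 * J * x)) (insert (1 + 4 * e x) P) ∧
    (MP (insert (1 + 4 * e x) P)).det = (MP P +
      Matrix.diagonal ((fun p : P => ns (1 + 4 * e x) (p : 𝓞 K)) +
        fun p : P => ns (p : 𝓞 K) (-1))).det := by
  have hsq' := sqf_tr e hea hsq
  obtain ⟨S, hf, hD⟩ := exists_fs hsq' rfl
  have hP' := isP_e hea hP
  have h1 : Prime (1 + 4 * x) := by
    rw [← e14] at hx
    exact (MulEquiv.prime_iff e.toMulEquiv).1 hx
  have hpm : Pm (1 + 4 * x) := ⟨h1, x, rfl⟩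
  have hS : 1 + 4 * x ∉ S := by
    intro h2
    apply hxP
    rw [← e14]
    exact (mem_P hf hD hP' _).2 (Or.inr h2)
  obtain ⟨hnf, hf', hprod⟩ := fs_insert hf hpm hS
  have hDD : (1 + 4 * J) * (1 + 4 * x) = 1 + 4 * (J + x + 4 * J * x) := by ring
  refine ⟨?_, ?_, ?_⟩
  · apply sqf_tr' e hea
    rw [← hDD]
    have h2 := hf'.sqf7
    rw [hprod, ← hD] at h2
    exact h2
  · have h2 := isP_insert hf hD hP' hpm hS
    rw [hDD, e14, e14, hea] at h2
    exact h2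
  · have h2 := det_twist hf hD hP' hpm hS
    rw [e14] at h2
    exact h2

open scoped Classical in
/-- **the proportion** -/
theorem shareX (hea : e aR = a) {J : RR} (hsq : Squarefree ((2 * a - 1) * (1 + 4 * e J)))
    {P : Finset (𝓞 K)} (hP : IsP a (1 + 4 * e J) P) {G : 𝓞 K → Prop}
    (hG : ∀ x : 𝓞 K, Prime (1 + 4 * x) → 1 + 4 * x ∉ P →
      (G x ↔ (MP (insert (1 + 4 * x) P)).det ≠ 0)) :
    Odd (Nat.card {u : P → ZMod 2 // (MP P + Matrix.diagonal u).det ≠ 0}) ∧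
    Tendsto (fun X : ℕ =>
      ({x : 𝓞 K | (Algebra.norm ℤ (1 + 4 * x)).natAbs ≤ X ∧ Prime (1 + 4 * x) ∧ G x}.ncard : ℝ) /
        ({x : 𝓞 K | (Algebra.norm ℤ (1 + 4 * x)).natAbs ≤ X ∧ Prime (1 + 4 * x)}.ncard : ℝ)) atTop
      (𝓝 ((Nat.card {u : P → ZMod 2 // (MP P + Matrix.diagonal u).det ≠ 0} : ℝ) / 2 ^ P.card)) ∧
    Tendsto (fun X : ℕ =>
      {x : 𝓞 K | (Algebra.norm ℤ (1 + 4 * x)).natAbs ≤ X ∧ Prime (1 + 4 * x) ∧ G x}.ncard)
      atTop atTop := by
  have hsq' := sqf_tr e hea hsq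
  obtain ⟨S, hf, hD⟩ := exists_fs hsq' rfl
  exact ⟨odd_card (MP P), share hf hD (isP_e hea hP) hsq' hG⟩

end

end Pool.Agent.H463.PT
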