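import Pool.Graph.R_pool_sql_team_seeded_3997aac3.Q129.LQ.CHEB
import Pool.Graph.R_pool_sql_team_seeded_3997aac3.Q208.LQ.Bas

/-!
# Natural densities of sets of places given by quadratic residue symbols
-/

set_option autoImplicit false

open NumberField IsDedekindDomain Filter Topology

namespace Pool.Agent.H463.PT

open Pool.Agent.Q283.LQ (sb mon)
open Pool.Agent.Q129.LQ (tend_all fin_norm fin_le)

variable {F : Type} [Field F] [NumberField F]

/-- the number of the places of norm `≤ X` with the property -/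
noncomputable def nb (Q : HeightOneSpectrum (𝓞 F) → Prop) (X : ℕ) : ℕ :=
  {v : HeightOneSpectrum (𝓞 F) | Ideal.absNorm v.asIdeal ≤ X ∧ Q v}.ncard

/-- the property has the natural density `c` -/
def Dn (Q : HeightOneSpectrum (𝓞 F) → Prop) (c : ℝ) : Prop :=
  Tendsto (fun X : ℕ => (nb Q X : ℝ) /
    ({v : HeightOneSpectrum (𝓞 F) | Ideal.absNorm v.asIdeal ≤ X}.ncard : ℝ)) atTop (𝓝 c)

lemma nb_eq (Q : HeightOneSpectrum (𝓞 F) → Prop) [DecidablePred Q] (X : ℕ) :
    nb Q X = ((fin_norm (F := F) X).toFinset.filter Q).card := by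
  unfold nb
  rw [← Set.ncard_coe_finset]
  congr 1
  ext v
  rw [Finset.coe_filter, Set.mem_ofPred_eq, Set.mem_ofPred_eq, Set.Finite.mem_toFinset]
  exact Iff.rfl

/-- the density of a set of tables of symbols -/
theorem dn_class {m : ℕ} (a : Fin m → F) (ha : ∀ i, a i ≠ 0)
    (hi : ∀ c : Fin m → ZMod 2, IsSquare (mon a c) → c = 0) (A : Finset (Fin m → ZMod 2)) :
    Dn (fun v => (fun i => sb v (a i)) ∈ A) (A.card / 2 ^ m) := by
  classical
  have hcheb := Pool.Agent.Q129.LQ.cheb Pool.Agent.Q208.LQ.bas F m a ha hi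
  have h1 : Tendsto (fun X : ℕ => ∑ e ∈ A,
      (({v : HeightOneSpectrum (𝓞 F) | Ideal.absNorm v.asIdeal ≤ X ∧ ∀ i, sb v (a i) = e i}.ncard
        : ℝ) / ({v : HeightOneSpectrum (𝓞 F) | Ideal.absNorm v.asIdeal ≤ X}.ncard : ℝ))) atTop
      (𝓝 (∑ _e ∈ A, (1 / 2 ^ m : ℝ))) := tendsto_finsetSum _ fun e _ => hcheb e
  rw [Finset.sum_const, nsmul_eq_mul, mul_one_div] at h1
  refine h1.congr fun X => ?_
  rw [← Finset.sum_div]
  congr 1
  have h2 := Finset.card_eq_sum_card_fiberwise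
    (s := (fin_norm (F := F) X).toFinset.filter fun v => (fun i => sb v (a i)) ∈ A)
    (f := fun v : HeightOneSpectrum (𝓞 F) => fun i => sb v (a i)) (t := A)
    (fun v hv => (Finset.mem_filter.1 hv).2)
  rw [nb_eq, h2, Nat.cast_sum]
  refine Finset.sum_congr rfl fun e he => ?_
  congr 1
  rw [← Set.ncard_coe_finset]
  congr 1
  ext v
  simp only [Finset.coe_filter, Finset.mem_filter, Set.Finite.mem_toFinset, Set.mem_ofPred_eq]
  constructor
  · rintro ⟨h2, h3⟩
    exact ⟨⟨h2, by rw [show (fun i => sb v (a i)) = e from funext h3]; exact he⟩, funext h3⟩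
  · rintro ⟨⟨h2, _⟩, h3⟩
    exact ⟨h2, fun i => congrFun h3 i⟩

/-- properties which agree at almost all places -/
theorem Dn.congr {Q Q' : HeightOneSpectrum (𝓞 F) → Prop} {c : ℝ} (h : Dn Q c)
    (S : Set (HeightOneSpectrum (𝓞 F))) (hS : S.Finite) (hQ : ∀ v ∉ S, (Q v ↔ Q' v)) :
    Dn Q' c := by
  have hK : Tendsto (fun X : ℕ => (S.ncard : ℝ) /
      ({v : HeightOneSpectrum (𝓞 F) | Ideal.absNorm v.asIdeal ≤ X}.ncard : ℝ)) atTop (𝓝 0) :=
    Tendsto.div_atTop tendsto_const_nhds tend_all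
  have hlow := Tendsto.sub h hK
  have hupp := Tendsto.add h hK
  rw [sub_zero] at hlow
  rw [add_zero] at hupp
  refine tendsto_of_tendsto_of_tendsto_of_le_of_le hlow hupp (fun X => ?_) (fun X => ?_)
  · show _ / _ - _ / _ ≤ _ / _
    rw [← sub_div]
    apply div_le_div_of_nonneg_right _ (Nat.cast_nonneg _)
    have h4 := Pool.Agent.Q129.LQ.cmp Q Q' S hS (fun v hv => (hQ v hv).1) X
    unfold nb
    linarith
  · show _ / _ ≤ _ / _ + _ / _
    rw [← add_div]
    apply div_le_div_of_nonneg_right _ (Nat.cast_nonneg _)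
    exact Pool.Agent.Q129.LQ.cmp Q' Q S hS (fun v hv => (hQ v hv).2) X

/-- the proportion inside a set of positive density -/
theorem Dn.div {Q Q' : HeightOneSpectrum (𝓞 F) → Prop} {c c' : ℝ} (h : Dn Q c) (h' : Dn Q' c')
    (hc : c' ≠ 0) : Tendsto (fun X : ℕ => (nb Q X : ℝ) / (nb Q' X : ℝ)) atTop (𝓝 (c / c')) := by
  refine (Tendsto.div h h' hc).congr' ?_
  filter_upwards [(tend_all (F := F)).eventually_gt_atTop 0] with X hX
  rw [Pi.div_apply, div_div_div_cancel_right₀ hX.ne']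

/-- the number of the places with a property of positive density tends to infinity -/
theorem Dn.atTop {Q : HeightOneSpectrum (𝓞 F) → Prop} {c : ℝ} (h : Dn Q c) (hc : 0 < c) :
    Tendsto (fun X : ℕ => nb Q X) atTop atTop := by
  have h1 := Tendsto.pos_mul_atTop hc h (tend_all (F := F))
  rw [← tendsto_natCast_atTop_iff (R := ℝ)]
  refine h1.congr' ?_
  filter_upwards [(tend_all (F := F)).eventually_gt_atTop 0] with X hX
  rw [div_mul_cancel₀ _ hX.ne']

end Pool.Agent.H463.PT
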