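import Pool.Agent.H463.PT.Den

/-!
# Local squares and residue symbols
-/

set_option autoImplicit false

open NumberField IsDedekindDomain WithZero

namespace Pool.Agent.H463.PT

open Pool.Agent.Q283.LQ (sb mon Lsq Dy)
open Pool.Agent.Q208.LQ (lsq_val int_rep p5)

variable {F : Type} [Field F] [NumberField F]

lemma val_two_eq {v : HeightOneSpectrum (𝓞 F)} (h2 : ¬ Dy v) : v.valuation F 2 = 1 := by
  have h : v.valuation F (algebraMap (𝓞 F) F 2) = 1 :=
    (v.valuation_eq_one_iff_notMem (K := F)).2 h2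
  rwa [map_ofNat] at h

lemma val_four_eq {v : HeightOneSpectrum (𝓞 F)} (h2 : ¬ Dy v) : v.valuation F 4 = 1 := by
  have h : (4 : F) = 2 * 2 := by norm_num
  rw [h, map_mul, val_two_eq h2, one_mul]

/-- local squares at the odd places -/
theorem lsq_iff {v : HeightOneSpectrum (𝓞 F)} (h2 : ¬ Dy v) {x : 𝓞 F} (hx : x ∉ v.asIdeal) :
    Lsq v (x : F) ↔ ∃ y : 𝓞 F, y ^ 2 - x ∈ v.asIdeal := by
  have hx1 : v.valuation F (x : F) = 1 := (v.valuation_eq_one_iff_notMem (K := F)).2 hx
  constructor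
  · intro h
    obtain ⟨z, hz⟩ := h 0
    have hz1 : v.valuation F ((x : F) * z ^ 2 - 1) < 1 := by
      simpa using hz
    have hz2 : v.valuation F ((x : F) * z ^ 2) = 1 := Pool.Agent.Q208.LQ.val_eq_one v hz1
    rw [map_mul, hx1, one_mul, map_pow] at hz2
    have hz3 : v.valuation F z = 1 := by
      rcases lt_trichotomy (v.valuation F z) 1 with h3 | h3 | h3
      · exact absurd hz2 (pow_lt_one₀ zero_le h3 two_ne_zero).ne
      · exact h3
      · exact absurd hz2 (one_lt_pow₀ h3 two_ne_zero).ne'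
    have hz0 : z ≠ 0 := by
      rintro rfl
      rw [map_zero] at hz3
      exact zero_ne_one hz3
    have hw : v.valuation F z⁻¹ = 1 := by rw [map_inv₀, hz3, inv_one]
    obtain ⟨α, hα, -⟩ := int_rep v hw
    refine ⟨α, ?_⟩
    rw [← v.valuation_lt_one_iff_mem (K := F)]
    show v.valuation F (algebraMap (𝓞 F) F (α ^ 2 - x)) < 1
    rw [map_sub, map_pow]
    have e1 : (algebraMap (𝓞 F) F α) ^ 2 - algebraMap (𝓞 F) F x =
        (algebraMap (𝓞 F) F α - z⁻¹) * (algebraMap (𝓞 F) F α + z⁻¹) -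
          z⁻¹ ^ 2 * ((x : F) * z ^ 2 - 1) := by
      field_simp
      ring
    rw [e1]
    refine lt_of_le_of_lt (Valuation.map_sub _ _ _) (max_lt ?_ ?_)
    · rw [map_mul]
      refine mul_lt_one_of_lt_of_le hα ?_
      refine (Valuation.map_add _ _ _).trans (max_le (v.valuation_le_one _) hw.le)
    · rw [map_mul, map_pow, hw, one_pow, one_mul]
      exact hz1
  · rintro ⟨y, hy⟩
    have hy1 : y ∉ v.asIdeal := by
      intro h
      apply hx
      have h1 : x = y * y - (y ^ 2 - x) := by ring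
      rw [h1]
      exact v.asIdeal.sub_mem (v.asIdeal.mul_mem_left _ h) hy
    have hy2 : v.valuation F (y : F) = 1 := (v.valuation_eq_one_iff_notMem (K := F)).2 hy1
    have hy0 : (y : F) ≠ 0 := by
      intro h
      rw [h, map_zero] at hy2
      exact zero_ne_one hy2
    refine p5 v (x := (y : F)⁻¹) ?_
    rw [val_four_eq h2]
    have e1 : (x : F) * (y : F)⁻¹ ^ 2 - 1 = -((y : F)⁻¹ ^ 2 * ((y : F) ^ 2 - x)) := by
      field_simp
      ring
    rw [e1, Valuation.map_neg, map_mul, map_pow, map_inv₀, hy2, inv_one, one_pow, one_mul]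
    have h1 : v.valuation F (algebraMap (𝓞 F) F (y ^ 2 - x)) < 1 :=
      (v.valuation_lt_one_iff_mem (K := F) (y ^ 2 - x)).2 hy
    rwa [map_sub, map_pow] at h1

end Pool.Agent.H463.PT
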