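import Pool.Agent.H463.PT.Sys
import Pool.Agent.H463.PT.Loc

/-!
# The proportion of the prime twists
-/

set_option autoImplicit false
set_option linter.unusedSectionVars false

attribute [-instance] DivisionRing.toRatAlgebra

open NumberField IsDedekindDomain Filter Topology

namespace Pool.Agent.H463.PT

open Pool.Agent.H463.QE
open Pool.Agent.R426.QC Pool.Agent.R426.QD
open Pool.Agent.Y698 Pool.Agent.Y698.SG
open Pool.Agent.W192.HK (sp)
open Pool.Agent.Q283.LQ (sb mon Lsq Dy)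

section

variable {K : Type} [Field K] [NumberField K] {e : RR ≃+* 𝓞 K} {D : RR} {S : Finset RR}
  {P : Finset (𝓞 K)}

/-- `-1` and the primes -/
noncomputable def av (P : Finset (𝓞 K)) : Fin (P.card + 1) → K :=
  Fin.cons (-1) fun i => (((P.equivFin.symm i : P) : 𝓞 K) : K)

lemma av_zero (P : Finset (𝓞 K)) : av P 0 = -1 := rfl

lemma av_succ (P : Finset (𝓞 K)) (i : Fin P.card) :
    av P i.succ = (((P.equivFin.symm i : P) : 𝓞 K) : K) := rfl

lemma prime_P (hP : IsP (e aR) (e D) P) {p : 𝓞 K} (hp : p ∈ P) : Prime p := ((hP p).1 hp).1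

lemma av_ne (hP : IsP (e aR) (e D) P) (l : Fin (P.card + 1)) : av P l ≠ 0 := by
  refine Fin.cases ?_ (fun i => ?_) l
  · rw [av_zero]
    exact neg_ne_zero.2 one_ne_zero
  · rw [av_succ]
    intro h
    exact (prime_P hP (P.equivFin.symm i).2).ne_zero (RingOfIntegers.ext h)

/-- the product of the primes is squarefree -/
lemma sqf_prod (hf : Fs S (fun x => x)) (hD : D = ∏ ϖ ∈ S, ϖ) (hP : IsP (e aR) (e D) P)
    (hsq : Squarefree (fR * D)) : Squarefree (∏ p ∈ P, p) := by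
  classical
  obtain ⟨φ, hφ⟩ := exists_phi hf hD hP
  have h1 : ∏ p ∈ P, p = e (-(fR * D)) := by
    rw [← Finset.prod_coe_sort P fun p => p, ← Equiv.prod_comp φ]
    simp only [hφ]
    rw [← map_prod, Finset.prod_coe_sort (se S) (pe fun x : RR => x), se_prod]
    congr 1
    show -fR * ∏ i ∈ S, i = _
    rw [← hD]
    ring
  rw [h1]
  intro x hx
  obtain ⟨x, rfl⟩ := e.surjective x
  have h2 : x * x ∣ fR * D := by
    rw [← dvd_neg, ← map_dvd_iff e, map_mul]
    exact hx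
  exact (MulEquiv.isUnit_map e.toMulEquiv).2 (hsq x h2)

/-- `-1` and the primes are independent modulo squares -/
lemma indep (hf : Fs S (fun x => x)) (hD : D = ∏ ϖ ∈ S, ϖ) (hP : IsP (e aR) (e D) P)
    (hsq : Squarefree (fR * D)) (c : Fin (P.card + 1) → ZMod 2)
    (hc : IsSquare (mon (av P) c)) : c = 0 := by
  classical
  have hz2 : ∀ x : ZMod 2, x = 0 ∨ x = 1 := by decide
  obtain ⟨w, hw⟩ : ∃ w : 𝓞 K, w = ∏ i : Fin P.card,
      ((P.equivFin.symm i : P) : 𝓞 K) ^ (c i.succ).val := ⟨_, rfl⟩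
  have hmon : mon (av P) c = (((-1) ^ (c 0).val * w : 𝓞 K) : K) := by
    unfold mon
    rw [Fin.prod_univ_succ, av_zero]
    show _ = algebraMap (𝓞 K) K ((-1) ^ (c 0).val * w)
    rw [map_mul, map_pow, map_neg, map_one, hw, map_prod]
    congr 1
  obtain ⟨k, hk⟩ := hc
  rw [hmon] at hk
  have hki : IsIntegral ℤ k := by
    apply IsIntegral.of_pow (n := 2) two_pos
    rw [pow_two, ← hk]
    exact RingOfIntegers.isIntegral_coe _
  obtain ⟨y, hy⟩ : ∃ y : 𝓞 K, (y : K) = k := ⟨⟨k, hki⟩, rfl⟩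
  have hyy : (-1) ^ (c 0).val * w = y * y := by
    apply RingOfIntegers.ext
    rw [hk, ← hy]
    rfl
  have hwd : w ∣ ∏ p ∈ P, p := by
    have h1 : ∏ p ∈ P, p = ∏ i : Fin P.card, ((P.equivFin.symm i : P) : 𝓞 K) := by
      rw [← Finset.prod_coe_sort P fun p => p, ← Equiv.prod_comp P.equivFin.symm]
    rw [h1, hw]
    refine Finset.prod_dvd_prod_of_dvd _ _ fun i _ => ?_
    rcases hz2 (c i.succ) with h | h
    · rw [h, ZMod.val_zero, pow_zero]
      exact one_dvd _
    · rw [h, ZMod.val_one, pow_one]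
  have hwy : w = (-1) ^ (c 0).val * (y * y) := by
    rw [← hyy, ← mul_assoc, ← pow_add, ← two_mul, pow_mul]
    norm_num
  have hyw : y * y ∣ w := by
    rw [hwy]
    exact Dvd.intro_left _ rfl
  have hyu : IsUnit y := sqf_prod hf hD hP hsq y (hyw.trans hwd)
  have hwu : IsUnit w := by
    rw [hwy]
    exact (isUnit_one.neg.pow _).mul (hyu.mul hyu)
  have hci : ∀ i : Fin P.card, c i.succ = 0 := by
    intro i
    rcases hz2 (c i.succ) with h | h
    · exact h
    · exfalso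
      apply (prime_P hP (P.equivFin.symm i).2).not_isUnit
      refine isUnit_of_dvd_unit ?_ hwu
      rw [hw]
      refine dvd_trans ?_ (Finset.dvd_prod_of_mem _ (Finset.mem_univ i))
      rw [h, ZMod.val_one, pow_one]
  have hw1 : w = 1 := by
    rw [hw]
    refine Finset.prod_eq_one fun i _ => ?_
    rw [hci i, ZMod.val_zero, pow_zero]
  have h0 : c 0 = 0 := by
    rcases hz2 (c 0) with h | h
    · exact h
    · exfalso
      rw [hw1, h, ZMod.val_one, pow_one, mul_one] at hyy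
      obtain ⟨u, rfl⟩ := e.surjective y
      have hu : IsUnit u := (MulEquiv.isUnit_map e.toMulEquiv).1 hyu
      have h3 : e (-1) = e (u * u) := by rw [map_neg, map_one, map_mul]; exact hyy
      have h4 := e.injective h3
      have h5 : (-1 : RR) = 1 := by
        rcases isUnit_iff.1 hu with h6 | h6
        · rw [h4, h6, one_mul]
        · rw [h4, h6]; ring
      have h6 := congrArg r4 h5
      rw [map_neg, map_one] at h6
      exact absurd h6 (by decide)
  funext l
  refine Fin.cases h0 (fun i => hci i) l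

/-- the symbol at a place -/
lemma sb_plc {ϖ : RR} (h : Pn ϖ) {x : RR} (hx : ¬ ϖ ∣ x) :
    sb (plc e h.pr : HeightOneSpectrum (𝓞 K)) (em e x) = ns ϖ x := by
  have hd : ¬ Dy (plc e h.pr : HeightOneSpectrum (𝓞 K)) := by
    intro h2
    have h3 : (2 : 𝓞 K) ∈ (plc e h.pr : HeightOneSpectrum (𝓞 K)).asIdeal := h2
    have h4 : (2 : 𝓞 K) = e 2 := (map_ofNat e 2).symm
    rw [h4, plc_mem] at h3
    exact h.od h3
  have hx1 : e x ∉ (plc e h.pr : HeightOneSpectrum (𝓞 K)).asIdeal := by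
    rw [plc_mem]
    exact hx
  have h1 := lsq_iff hd hx1
  have h2 : (∃ y : 𝓞 K, y ^ 2 - e x ∈ (plc e h.pr : HeightOneSpectrum (𝓞 K)).asIdeal) ↔
      ∃ y : RR, ϖ ∣ y ^ 2 - x := by
    constructor
    · rintro ⟨y, hy⟩
      obtain ⟨y, rfl⟩ := e.surjective y
      rw [← map_pow, ← map_sub, plc_mem] at hy
      exact ⟨y, hy⟩
    · rintro ⟨y, hy⟩
      refine ⟨e y, ?_⟩
      rw [← map_pow, ← map_sub, plc_mem]
      exact hy
  rw [h2] at h1
  have h3 : Lsq (plc e h.pr : HeightOneSpectrum (𝓞 K)) (em e x) ↔ ∃ y : RR, ϖ ∣ y ^ 2 - x := h1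
  unfold ns
  by_cases h4 : ∃ y : RR, ϖ ∣ y ^ 2 - x
  · rw [if_pos h4]
    exact Pool.Agent.Q129.LQ.sb_zero_iff.2 (h3.2 h4)
  · rw [if_neg h4]
    exact Pool.Agent.Q129.LQ.sb_one_iff.2 fun h5 => h4 (h3.1 h5)

lemma sb_neg_one {ϖ : RR} (h : Pn ϖ) :
    sb (plc e h.pr : HeightOneSpectrum (𝓞 K)) (-1) = tp ϖ := by
  have h1 : (-1 : K) = em e (-1) := by rw [map_neg, map_one]
  rw [h1, sb_plc h (fun h2 => h.pr.not_isUnit (isUnit_of_dvd_unit h2 isUnit_one.neg)), tp_ns h]

end

end Pool.Agent.H463.PT
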