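import Pool.Agent.H463.PT.Lina
import Pool.Agent.H463.QE.OkX

/-!
# The matrix of a parameter and of its twist by a prime
-/

set_option autoImplicit false

open Finset Matrix

namespace Pool.Agent.H463.PT

open Pool.Agent.H463.QE (ns MP IsP)

open scoped Classical in
/-- the entries of the matrix -/
noncomputable def gm {R : Type} [CommRing R] (P : Finset R) (p q : R) : ZMod 2 :=
  if p = q then ns p (-1) + ∑ r ∈ P.erase p, ns r p else ns q p

lemma MP_apply {R : Type} [CommRing R] (P : Finset R) (i j : P) :
    MP P i j = gm P (i : R) (j : R) := by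
  unfold MP gm
  rw [Matrix.of_apply]
  by_cases h : i = j
  · rw [if_pos h, if_pos (congrArg Subtype.val h)]
  · rw [if_neg h, if_neg (fun h1 => h (Subtype.ext h1))]

open scoped Classical in
lemma gm_self {R : Type} [CommRing R] (P : Finset R) (p : R) :
    gm P p p = ns p (-1) + ∑ r ∈ P.erase p, ns r p := if_pos rfl

lemma gm_ne {R : Type} [CommRing R] (P : Finset R) {p q : R} (h : p ≠ q) :
    gm P p q = ns q p := if_neg h

/-- the properties of the symbols of the primes of a parameter -/
structure Sys {R : Type} [CommRing R] (P : Finset R) : Prop where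
  sum : ∑ p ∈ P, ns p (-1) = 1
  rcp : ∀ p ∈ P, ∀ r ∈ P, p ≠ r → ns r p + ns p r = ns p (-1) * ns r (-1)

section

variable {R : Type} [CommRing R] {P : Finset R}

lemma row_sum (i : P) : ∑ j : P, MP P i j = ns (i : R) (-1) := by
  classical
  simp only [MP_apply]
  rw [Finset.sum_coe_sort P fun j => gm P (i : R) j, ← Finset.add_sum_erase P _ i.2, gm_self]
  rw [Finset.sum_congr rfl fun j hj => gm_ne P (Finset.ne_of_mem_erase hj).symm]
  rw [add_assoc, z2, add_zero]

lemma col_sum (h : Sys P) (j : P) : ∑ i : P, MP P i j = ns (j : R) (-1) := by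
  classical
  simp only [MP_apply]
  rw [Finset.sum_coe_sort P fun i => gm P i (j : R), ← Finset.add_sum_erase P _ j.2, gm_self]
  rw [Finset.sum_congr rfl fun i hi => gm_ne P (Finset.ne_of_mem_erase hi), add_assoc,
    ← Finset.sum_add_distrib]
  have h1 : ∑ x ∈ P.erase (j : R), (ns x (j : R) + ns (j : R) x) =
      ∑ x ∈ P.erase (j : R), ns (j : R) (-1) * ns x (-1) := by
    refine Finset.sum_congr rfl fun x hx => ?_
    rw [Finset.mem_erase] at hx
    exact h.rcp _ j.2 _ hx.2 (Ne.symm hx.1)
  rw [h1, ← Finset.mul_sum]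
  have h2 := Finset.add_sum_erase P (fun p => ns p (-1)) j.2
  rw [h.sum] at h2
  have h3 := z2m (ns (j : R) (-1))
  linear_combination ns (j : R) (-1) * h2 - h3

open scoped Classical in
/-- **the twist by a prime `≡ 1 mod 4`** -/
theorem det_insert (h : Sys P) {q : R} (hq : q ∉ P) (hq0 : ns q (-1) = 0)
    (hqr : ∀ p ∈ P, ns p q = ns q p) :
    (MP (insert q P)).det =
      (MP P + diagonal ((fun p : P => ns q (p : R)) + fun p : P => ns (p : R) (-1))).det := by
  rw [← det_border (MP P) (fun p : P => ns (p : R) (-1)) (fun p : P => ns q (p : R)) row_sum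
    (col_sum h) (fun i j hij => ?_) ?_]
  · have hmem : ∀ p : P, (p : R) ∈ insert q P := fun p => Finset.mem_insert_of_mem p.2
    have hbij : Function.Bijective (Sum.elim (fun p : P => (⟨p, hmem p⟩ : (insert q P : Finset R)))
        (fun _ : Unit => (⟨q, Finset.mem_insert_self q P⟩ : (insert q P : Finset R)))) := by
      constructor
      · rintro (p | _) (p' | _) hh
        · have h1 : (p : R) = p' := congrArg (fun x : (insert q P : Finset R) => (x : R)) hh
          rw [Subtype.ext h1]
        · have h1 : (p : R) = q := congrArg (fun x : (insert q P : Finset R) => (x : R)) hh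
          exact absurd (h1 ▸ p.2) hq
        · have h1 : q = (p' : R) := congrArg (fun x : (insert q P : Finset R) => (x : R)) hh
          exact absurd (h1 ▸ p'.2) hq
        · rfl
      · rintro ⟨x, hx⟩
        rcases Finset.mem_insert.1 hx with rfl | hx'
        · exact ⟨Sum.inr (), rfl⟩
        · exact ⟨Sum.inl ⟨x, hx'⟩, rfl⟩
    obtain ⟨φ, hφ1, hφ2⟩ : ∃ φ : P ⊕ Unit ≃ (insert q P : Finset R),
        (∀ p : P, ((φ (Sum.inl p) : (insert q P : Finset R)) : R) = p) ∧
        ∀ x : Unit, ((φ (Sum.inr x) : (insert q P : Finset R)) : R) = q :=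
      ⟨Equiv.ofBijective _ hbij, fun p => rfl, fun x => rfl⟩
    rw [← Matrix.det_submatrix_equiv_self φ]
    congr 1
    have hne : ∀ p : P, q ≠ (p : R) := fun p h1 => hq (h1 ▸ p.2)
    have hser : ∀ p : P, ∑ r ∈ (insert q P).erase (p : R), ns r (p : R) =
        ns q (p : R) + ∑ r ∈ P.erase (p : R), ns r (p : R) := by
      intro p
      rw [Finset.erase_insert_of_ne (hne p), Finset.sum_insert]
      exact fun h1 => hq (Finset.mem_of_mem_erase h1)
    ext i j
    rw [Matrix.submatrix_apply, MP_apply]
    rcases i with i | i <;> rcases j with j | j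
    · rw [fromBlocks_apply₁₁, Matrix.add_apply, MP_apply, hφ1, hφ1]
      by_cases hij : i = j
      · subst hij
        rw [gm_self, gm_self, hser, diagonal_apply_eq]
        ring
      · have hij' : (i : R) ≠ j := fun h1 => hij (Subtype.ext h1)
        rw [gm_ne _ hij', gm_ne _ hij', diagonal_apply_ne _ hij, add_zero]
    · rw [fromBlocks_apply₁₂, hφ1, hφ2, gm_ne _ (hne i).symm, replicateCol_apply]
    · rw [fromBlocks_apply₂₁, hφ1, hφ2, gm_ne _ (hne j), replicateRow_apply]
      exact hqr _ j.2
    · rw [fromBlocks_apply₂₂, hφ2, gm_self, hq0, zero_add, Finset.erase_insert hq,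
        ← Finset.sum_coe_sort P fun r => ns r q]
      exact Finset.sum_congr rfl fun p _ => hqr _ p.2
  · rw [← h.sum, ← Finset.sum_coe_sort P fun p => ns p (-1)]
  · have hij' : (i : R) ≠ j := fun h1 => hij (Subtype.ext h1)
    rw [MP_apply, MP_apply, gm_ne _ hij', gm_ne _ hij'.symm]
    exact h.rcp _ i.2 _ j.2 hij'

end

end Pool.Agent.H463.PT
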