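import Pool.Agent.H463.PT.Out

/-!
# The proportion of the prime twists: the limit
-/

set_option autoImplicit false
set_option linter.unusedSectionVars false
set_option linter.unusedVariables false

attribute [-instance] DivisionRing.toRatAlgebra

open NumberField IsDedekindDomain Filter Topology

namespace Pool.Agent.H463.PT

open Pool.Agent.H463.QE
open Pool.Agent.R426.QC Pool.Agent.R426.QD
open Pool.Agent.Y698 Pool.Agent.Y698.SG
open Pool.Agent.W192.HK (sp)
open Pool.Agent.Q283.LQ (sb mon Lsq Dy)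

section

variable {K : Type} [Field K] [NumberField K] {e : RR ≃+* 𝓞 K} {D : RR} {S : Finset RR}
  {P : Finset (𝓞 K)}

/-- all the primes `1 + 4 x` -/
lemma class_all (hf : Fs S (fun x => x)) (hD : D = ∏ ϖ ∈ S, ϖ) (hP : IsP (e aR) (e D) P)
    {v : HeightOneSpectrum (𝓞 K)} (hd : ¬ Dy v) :
    QG (fun _ => True) v ↔ sb v (av P 0) = 0 := by
  obtain ⟨ϖ, hϖ, rfl⟩ := exists_pm e hd
  rw [av_zero, sb_neg_one hϖ]
  constructor
  · rintro ⟨x, h1, -, h3⟩
    obtain ⟨x, rfl⟩ := e.surjective x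
    rw [← e14] at h1 h3
    have h4 : Prime (1 + 4 * x) := (MulEquiv.prime_iff e.toMulEquiv).1 h1
    have h5 : plc e hϖ.pr = plc e h4 := HeightOneSpectrum.ext h3
    rw [plc_eq] at h5
    obtain ⟨u, hu⟩ := h5
    have h6 : ϖ = 1 + 4 * x := by
      rcases isUnit_iff.1 u.isUnit with h6 | h6
      · rw [← hu, h6, mul_one]
      · exfalso
        rw [h6, mul_neg_one] at hu
        have h7 := r4_m4 (ϖ := 1 + 4 * x) ⟨x, rfl⟩
        rw [← hu, map_neg, hϖ.r4] at h7
        exact absurd h7 (by decide)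
    exact tp_pm ⟨hϖ.pr, x, h6⟩
  · intro h0
    have hpm : Pm ϖ := by
      rcases hϖ.cases with h1 | ⟨p, A, B, h1, -⟩
      · exact h1
      · rw [h1.tp] at h0
        exact absurd h0 one_ne_zero
    obtain ⟨x, hx⟩ := hpm.m4
    refine ⟨e x, ?_, trivial, ?_⟩
    · rw [← e14, ← hx]
      exact (MulEquiv.prime_iff e.toMulEquiv).2 hϖ.pr
    · rw [← e14, ← hx]
      rfl

/-- the finite set of the exceptional places -/
lemma fin_exc (hP : IsP (e aR) (e D) P) :
    {v : HeightOneSpectrum (𝓞 K) | Dy v ∨ ∃ p ∈ P, p ∈ v.asIdeal}.Finite := by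
  have h1 : ∀ x : 𝓞 K, x ≠ 0 → {v : HeightOneSpectrum (𝓞 K) | x ∈ v.asIdeal}.Finite := by
    intro x hx
    refine (Ideal.finite_factors (I := Ideal.span {x})
      (fun h => hx (Ideal.span_singleton_eq_bot.1 h))).subset ?_
    intro v hv
    show v.asIdeal ∣ Ideal.span {x}
    rw [Ideal.dvd_span_singleton]
    exact hv
  have h2 : {v : HeightOneSpectrum (𝓞 K) | Dy v ∨ ∃ p ∈ P, p ∈ v.asIdeal} ⊆
      {v : HeightOneSpectrum (𝓞 K) | (2 : 𝓞 K) ∈ v.asIdeal} ∪
        ⋃ p ∈ P, {v : HeightOneSpectrum (𝓞 K) | p ∈ v.asIdeal} := by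
    rintro v (hv | ⟨p, hp, hv⟩)
    · exact Or.inl hv
    · right
      rw [Set.mem_iUnion₂]
      exact ⟨p, hp, hv⟩
  refine ((h1 2 two_ne_zero).union ?_).subset h2
  refine Set.Finite.biUnion P.finite_toSet fun p hp => h1 p ?_
  exact (prime_P hP hp).ne_zero

open scoped Classical in
/-- the number of the tables -/
lemma card_tables (hP : IsP (e aR) (e D) P) :
    (Finset.univ.filter fun t : Fin (P.card + 1) → ZMod 2 => t 0 = 0 ∧ (MP P +
      Matrix.diagonal ((fun p : P => t (P.equivFin p).succ) +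
        fun p : P => ns (p : 𝓞 K) (-1))).det ≠ 0).card =
    Nat.card {u : P → ZMod 2 // (MP P + Matrix.diagonal u).det ≠ 0} := by
  rw [← Nat.card_eq_finsetCard]
  refine Nat.card_congr ?_
  refine Equiv.symm ?_
  refine
    { toFun := fun u => ⟨Fin.cons 0 fun i => u.1 (P.equivFin.symm i) +
          ns ((P.equivFin.symm i : P) : 𝓞 K) (-1), ?_⟩
      invFun := fun t => ⟨(fun p : P => t.1 (P.equivFin p).succ) + fun p : P =>
          ns (p : 𝓞 K) (-1), ?_⟩
      left_inv := ?_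
      right_inv := ?_ }
  · rw [Finset.mem_filter]
    refine ⟨Finset.mem_univ _, rfl, ?_⟩
    have h1 : ((fun p : P => (Fin.cons 0 fun i => u.1 (P.equivFin.symm i) +
        ns ((P.equivFin.symm i : P) : 𝓞 K) (-1) : Fin (P.card + 1) → ZMod 2)
          (P.equivFin p).succ) + fun p : P => ns (p : 𝓞 K) (-1)) = u.1 := by
      funext p
      rw [Pi.add_apply, Fin.cons_succ, Equiv.symm_apply_apply, add_assoc, z2, add_zero]
    rw [h1]
    exact u.2
  · exact (Finset.mem_filter.1 t.2).2.2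
  · intro u
    apply Subtype.ext
    funext p
    show (Fin.cons 0 fun i => u.1 (P.equivFin.symm i) +
        ns ((P.equivFin.symm i : P) : 𝓞 K) (-1) : Fin (P.card + 1) → ZMod 2)
          (P.equivFin p).succ + ns (p : 𝓞 K) (-1) = u.1 p
    rw [Fin.cons_succ, Equiv.symm_apply_apply, add_assoc, z2, add_zero]
  · intro t
    apply Subtype.ext
    funext l
    show (Fin.cons 0 fun i => ((fun p : P => t.1 (P.equivFin p).succ) + fun p : P =>
          ns (p : 𝓞 K) (-1)) (P.equivFin.symm i) +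
        ns ((P.equivFin.symm i : P) : 𝓞 K) (-1) : Fin (P.card + 1) → ZMod 2) l = t.1 l
    refine Fin.cases ?_ (fun i => ?_) l
    · rw [Fin.cons_zero]
      exact (Finset.mem_filter.1 t.2).2.1.symm
    · rw [Fin.cons_succ, Pi.add_apply, Equiv.apply_symm_apply, add_assoc, z2, add_zero]

lemma card_zero (m : ℕ) :
    (Finset.univ.filter fun t : Fin (m + 1) → ZMod 2 => t 0 = 0).card = 2 ^ m := by
  classical
  have h1 : (Finset.univ.filter fun t : Fin (m + 1) → ZMod 2 => t 0 = 0) =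
      (Finset.univ : Finset (Fin m → ZMod 2)).image fun s => (Fin.cons 0 s : Fin (m + 1) → ZMod 2) := by
    ext t
    rw [Finset.mem_filter, Finset.mem_image]
    constructor
    · rintro ⟨-, h⟩
      refine ⟨Fin.tail t, Finset.mem_univ _, ?_⟩
      rw [← h]
      exact Fin.cons_self_tail t
    · rintro ⟨s, -, rfl⟩
      exact ⟨Finset.mem_univ _, rfl⟩
  rw [h1, Finset.card_image_of_injective, Finset.card_univ, Fintype.card_fun, ZMod.card,
    Fintype.card_fin]
  intro s s' h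
  have h2 := congrArg Fin.tail h
  simpa using h2

open scoped Classical in
/-- **the proportion** -/
theorem share (hf : Fs S (fun x => x)) (hD : D = ∏ ϖ ∈ S, ϖ) (hP : IsP (e aR) (e D) P)
    (hsq : Squarefree (fR * D)) {G : 𝓞 K → Prop}
    (hG : ∀ x : 𝓞 K, Prime (1 + 4 * x) → 1 + 4 * x ∉ P →
      (G x ↔ (MP (insert (1 + 4 * x) P)).det ≠ 0)) :
    Tendsto (fun X : ℕ =>
      ({x : 𝓞 K | (Algebra.norm ℤ (1 + 4 * x)).natAbs ≤ X ∧ Prime (1 + 4 * x) ∧ G x}.ncard : ℝ) /
        ({x : 𝓞 K | (Algebra.norm ℤ (1 + 4 * x)).natAbs ≤ X ∧ Prime (1 + 4 * x)}.ncard : ℝ)) atTop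
      (𝓝 ((Nat.card {u : P → ZMod 2 // (MP P + Matrix.diagonal u).det ≠ 0} : ℝ) / 2 ^ P.card)) ∧
    Tendsto (fun X : ℕ =>
      {x : 𝓞 K | (Algebra.norm ℤ (1 + 4 * x)).natAbs ≤ X ∧ Prime (1 + 4 * x) ∧ G x}.ncard)
      atTop atTop := by
  have hE := fin_exc hP
  have hc1 := Dn.congr (dn_class (av P) (av_ne hP) (indep hf hD hP hsq)
    (Finset.univ.filter fun t : Fin (P.card + 1) → ZMod 2 => t 0 = 0 ∧ (MP P +
      Matrix.diagonal ((fun p : P => t (P.equivFin p).succ) +
        fun p : P => ns (p : 𝓞 K) (-1))).det ≠ 0)) (Q' := QG G) _ hE (fun v hv => by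
      have h1 : ¬ Dy v := fun h => hv (Or.inl h)
      have h2 : ∀ p ∈ P, p ∉ v.asIdeal := fun p hp h => hv (Or.inr ⟨p, hp, h⟩)
      rw [class_iff hf hD hP hG h1 h2, Finset.mem_filter]
      exact and_iff_right (Finset.mem_univ _))
  have hc0 := Dn.congr (dn_class (av P) (av_ne hP) (indep hf hD hP hsq)
    (Finset.univ.filter fun t : Fin (P.card + 1) → ZMod 2 => t 0 = 0))
    (Q' := QG fun _ => True) _ hE (fun v hv => by
      have h1 : ¬ Dy v := fun h => hv (Or.inl h)
      rw [class_all hf hD hP h1, Finset.mem_filter]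
      exact and_iff_right (Finset.mem_univ _))
  rw [card_tables hP] at hc1
  rw [card_zero] at hc0
  have hodd := odd_card (MP P)
  have hN : 0 < Nat.card {u : P → ZMod 2 // (MP P + Matrix.diagonal u).det ≠ 0} := hodd.pos
  constructor
  · have h1 := Dn.div hc1 hc0 (by positivity)
    have h2 : (Nat.card {u : P → ZMod 2 // (MP P + Matrix.diagonal u).det ≠ 0} : ℝ) /
        2 ^ (P.card + 1) / (((2 ^ P.card : ℕ) : ℝ) / 2 ^ (P.card + 1)) =
        (Nat.card {u : P → ZMod 2 // (MP P + Matrix.diagonal u).det ≠ 0} : ℝ) / 2 ^ P.card := by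
      push_cast
      field_simp
    rw [h2] at h1
    refine h1.congr fun X => ?_
    rw [← cnt e G X, ← cnt e (fun _ => True) X]
    simp only [and_true]
  · have h1 := Dn.atTop hc1 (by positivity)
    refine h1.congr fun X => ?_
    rw [← cnt e G X]

end

end Pool.Agent.H463.PT
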