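import Mathlib

/-!
# Linear algebra over the field with two elements: bordered matrices and diagonal perturbations
-/

set_option autoImplicit false

open Finset Matrix

namespace Pool.Agent.H463.PT

variable {ι : Type*} [Fintype ι] [DecidableEq ι]

lemma two0 : (2 : ZMod 2) = 0 := rfl

lemma z2 (x : ZMod 2) : x + x = 0 := CharTwo.add_self_eq_zero x

lemma z2m (x : ZMod 2) : x * x = x := by revert x; decide

lemma z2n (x : ZMod 2) : -x = x := by revert x; decide

/-- the bordered matrix -/
theorem det_border (M : Matrix ι ι (ZMod 2)) (ε u : ι → ZMod 2)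
    (hrow : ∀ i, ∑ j, M i j = ε i) (hcol : ∀ j, ∑ i, M i j = ε j)
    (hrec : ∀ i j, i ≠ j → M i j + M j i = ε i * ε j) (hsum : ∑ i, ε i = 1) :
    (fromBlocks (M + diagonal u) (replicateCol Unit u) (replicateRow Unit u)
      (Matrix.of fun _ _ : Unit => ∑ i, u i)).det = (M + diagonal (u + ε)).det := by
  have hE1 : (fromBlocks (1 : Matrix ι ι (ZMod 2)) 0 (replicateRow Unit fun _ => 1)
      (1 : Matrix Unit Unit (ZMod 2))).det = 1 := by
    rw [det_fromBlocks_zero₁₂, det_one, det_one, one_mul]
  have hE2 : (fromBlocks (1 : Matrix ι ι (ZMod 2)) (replicateCol Unit fun _ => 1) 0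
      (1 : Matrix Unit Unit (ZMod 2))).det = 1 := by
    rw [det_fromBlocks_zero₂₁, det_one, det_one, one_mul]
  have hdr : ∀ i, ∑ j, (M i j + (diagonal u : Matrix ι ι (ZMod 2)) i j) = ε i + u i := by
    intro i
    simp only [Finset.sum_add_distrib, hrow, diagonal_apply, Finset.sum_ite_eq,
      Finset.mem_univ, if_true]
  have hdc : ∀ j, ∑ i, (M i j + (diagonal u : Matrix ι ι (ZMod 2)) i j) = ε j + u j := by
    intro j
    simp only [Finset.sum_add_distrib, hcol, diagonal_apply, Finset.sum_ite_eq',
      Finset.mem_univ, if_true]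
  have hprod : fromBlocks (1 : Matrix ι ι (ZMod 2)) 0 (replicateRow Unit fun _ => 1)
      (1 : Matrix Unit Unit (ZMod 2)) *
      fromBlocks (M + diagonal u) (replicateCol Unit u) (replicateRow Unit u)
      (Matrix.of fun _ _ : Unit => ∑ i, u i) *
      fromBlocks (1 : Matrix ι ι (ZMod 2)) (replicateCol Unit fun _ => 1) 0
      (1 : Matrix Unit Unit (ZMod 2)) =
      fromBlocks (M + diagonal u) (replicateCol Unit ε) (replicateRow Unit ε) 1 := by
    rw [fromBlocks_multiply, fromBlocks_multiply]
    congr 1
    · simp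
    · ext i j
      simp only [Matrix.one_mul, Matrix.zero_mul, add_zero, Matrix.add_apply,
        Matrix.mul_apply, replicateCol_apply, mul_one, Matrix.mul_one]
      rw [hdr]
      have := z2 (u i)
      linear_combination this
    · ext i j
      simp only [Matrix.one_mul, Matrix.mul_zero, Matrix.mul_one, Matrix.add_apply,
        Matrix.mul_apply, replicateRow_apply, one_mul, Matrix.zero_apply, add_zero]
      rw [hdc]
      have := z2 (u j)
      linear_combination this
    · ext i j
      simp only [Matrix.one_mul, Matrix.mul_one, Matrix.add_apply,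
        Matrix.mul_apply, replicateRow_apply, replicateCol_apply, one_mul, mul_one,
        Matrix.of_apply]
      have h1 : ∑ x, ((∑ x_1, (M x_1 x + (diagonal u : Matrix ι ι (ZMod 2)) x_1 x)) + u x) =
          ∑ x, (ε x + u x + u x) :=
        Finset.sum_congr rfl fun x _ => by rw [hdc x]
      rw [h1, Finset.sum_add_distrib, Finset.sum_add_distrib, hsum]
      have h2 := z2 (∑ x, u x)
      have h3 : (1 : Matrix Unit Unit (ZMod 2)) i j = 1 := by
        rw [Subsingleton.elim i j, Matrix.one_apply_eq]
      rw [h3]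
      linear_combination 2 * h2
  have h1 := congrArg Matrix.det hprod
  rw [det_mul, det_mul, hE1, hE2, one_mul, mul_one, det_fromBlocks_one₂₂] at h1
  rw [h1, ← det_transpose]
  congr 1
  ext i j
  simp only [Matrix.transpose_apply, Matrix.sub_apply, Matrix.add_apply, Matrix.mul_apply,
    replicateCol_apply, replicateRow_apply, Finset.univ_unique, Finset.sum_singleton]
  by_cases hij : i = j
  · subst hij
    rw [diagonal_apply_eq, diagonal_apply_eq, z2m, Pi.add_apply, sub_eq_add_neg, z2n]
    ring
  · rw [diagonal_apply_ne _ hij, diagonal_apply_ne _ (Ne.symm hij), add_zero, add_zero]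
    have h2 := hrec i j hij
    have h3 := z2 (M i j)
    have h4 := z2 (ε i * ε j)
    linear_combination h2 - h3

/-- the number of diagonal perturbations with nonzero determinant is odd -/
theorem sum_det (M : Matrix ι ι (ZMod 2)) : ∑ u : ι → ZMod 2, (M + diagonal u).det = 1 := by
  classical
  have h1 : ∀ u : ι → ZMod 2, (M + diagonal u).det =
      ∑ σ : Equiv.Perm ι, ∏ i, (M (σ i) i + if σ i = i then u i else 0) := by
    intro u
    rw [det_apply]
    refine Finset.sum_congr rfl fun σ _ => ?_
    have h2 : ∀ x : ZMod 2, Equiv.Perm.sign σ • x = x := by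
      intro x
      rcases Int.units_eq_one_or (Equiv.Perm.sign σ) with h | h
      · rw [h, one_smul]
      · rw [h, Units.neg_smul, one_smul, z2n]
    rw [h2]
    refine Finset.prod_congr rfl fun i _ => ?_
    rw [Matrix.add_apply, diagonal_apply]
    congr 1
    by_cases h3 : σ i = i
    · rw [if_pos h3, if_pos h3, h3]
    · rw [if_neg h3, if_neg h3]
  simp only [h1]
  rw [Finset.sum_comm]
  have h4 : ∀ σ : Equiv.Perm ι, (∑ u : ι → ZMod 2, ∏ i, (M (σ i) i + if σ i = i then u i else 0)) =
      ∏ i, ∑ t : ZMod 2, (M (σ i) i + if σ i = i then t else 0) := by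
    intro σ
    rw [Finset.prod_univ_sum]
    rw [Fintype.piFinset_univ]
  simp only [h4]
  have h5 : ∀ (m : ZMod 2), ∑ t : ZMod 2, (m + t) = 1 := by decide
  have h6 : ∀ (m : ZMod 2), ∑ t : ZMod 2, (m + 0) = 0 := by decide
  rw [Finset.sum_eq_single (1 : Equiv.Perm ι)]
  · refine Finset.prod_eq_one fun i _ => ?_
    have : ∀ t : ZMod 2, (if (1 : Equiv.Perm ι) i = i then t else 0) = t := fun t => if_pos rfl
    simp only [this]
    exact h5 _
  · intro σ _ hσ
    obtain ⟨i, hi⟩ : ∃ i, σ i ≠ i := by
      by_contra h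
      push Not at h
      exact hσ (Equiv.ext h)
    refine Finset.prod_eq_zero (Finset.mem_univ i) ?_
    have : ∀ t : ZMod 2, (if σ i = i then t else 0) = 0 := fun t => if_neg hi
    simp only [this]
    exact h6 _
  · intro h
    exact absurd (Finset.mem_univ _) h

theorem odd_card (M : Matrix ι ι (ZMod 2)) :
    Odd (Nat.card {u : ι → ZMod 2 // (M + diagonal u).det ≠ 0}) := by
  classical
  rw [Nat.card_eq_fintype_card, Fintype.card_subtype]
  have h1 := sum_det M
  have h2 : ∀ x : ZMod 2, x = if x ≠ 0 then 1 else 0 := by decide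
  have h3 : ∑ u : ι → ZMod 2, (M + diagonal u).det =
      (((Finset.univ.filter fun u : ι → ZMod 2 => (M + diagonal u).det ≠ 0).card : ℕ) : ZMod 2) := by
    rw [Finset.sum_congr rfl fun u _ => h2 _, Finset.sum_boole]
  rw [h1] at h3
  rw [← Nat.not_even_iff_odd, ← ZMod.natCast_eq_zero_iff_even]
  intro h4
  rw [h4] at h3
  exact one_ne_zero h3

end Pool.Agent.H463.PT
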