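import Pool.Agent.H463.PT.Fin

/-!
# The proportion of the prime twists: the count
-/

set_option autoImplicit false
set_option linter.unusedSectionVars false

attribute [-instance] DivisionRing.toRatAlgebra

open NumberField IsDedekindDomain Filter Topology

namespace Pool.Agent.H463.PT

open Pool.Agent.H463.QE
open Pool.Agent.R426.QC Pool.Agent.R426.QD
open Pool.Agent.Y698 Pool.Agent.Y698.SG
open Pool.Agent.W192.HK (sp)
open Pool.Agent.Q283.LQ (sb mon Lsq Dy)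

section

variable {K : Type} [Field K] [NumberField K]

/-- the places of the primes `1 + 4 x` with the property -/
def QG (G : 𝓞 K → Prop) (v : HeightOneSpectrum (𝓞 K)) : Prop :=
  ∃ x : 𝓞 K, Prime (1 + 4 * x) ∧ G x ∧ v.asIdeal = Ideal.span {1 + 4 * x}

variable (e : RR ≃+* 𝓞 K)

lemma e14 (x : RR) : e (1 + 4 * x) = 1 + 4 * e x := by
  rw [map_add, map_one, map_mul, map_ofNat]

include e in
lemma inj14 {x y : 𝓞 K} (h : Associated (1 + 4 * x) (1 + 4 * y)) : x = y := by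
  obtain ⟨x, rfl⟩ := e.surjective x
  obtain ⟨y, rfl⟩ := e.surjective y
  rw [← e14, ← e14] at h
  have h1 : Associated (1 + 4 * x) (1 + 4 * y) := by
    have h2 := h.map (e.symm : 𝓞 K →* RR)
    simpa using h2
  obtain ⟨u, hu⟩ := h1
  have hx := r4_m4 (ϖ := 1 + 4 * x) ⟨x, rfl⟩
  have hy := r4_m4 (ϖ := 1 + 4 * y) ⟨y, rfl⟩
  rcases isUnit_iff.1 u.isUnit with h6 | h6
  · rw [h6, mul_one] at hu
    have h7 : (4 : RR) * (x - y) = 0 := by linear_combination hu
    rcases mul_eq_zero.1 h7 with h8 | h8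
    · exact absurd h8 (by norm_num)
    · rw [sub_eq_zero.1 h8]
  · rw [h6, mul_neg_one] at hu
    rw [← hu, map_neg, hx] at hy
    exact absurd hy (by decide)

include e in
/-- the count -/
lemma cnt (G : 𝓞 K → Prop) (X : ℕ) :
    {x : 𝓞 K | (Algebra.norm ℤ (1 + 4 * x)).natAbs ≤ X ∧ Prime (1 + 4 * x) ∧ G x}.ncard =
      nb (QG G) X := by
  unfold nb
  refine Set.ncard_congr (fun x hx => ⟨Ideal.span {1 + 4 * x},
    (Ideal.span_singleton_prime hx.2.1.ne_zero).2 hx.2.1,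
    fun h => hx.2.1.ne_zero (Ideal.span_singleton_eq_bot.1 h)⟩) ?_ ?_ ?_
  · intro x hx
    refine ⟨?_, x, hx.2.1, hx.2.2, rfl⟩
    show Ideal.absNorm (Ideal.span {1 + 4 * x}) ≤ X
    rw [Ideal.absNorm_span_singleton]
    exact hx.1
  · intro x y hx hy h
    have h1 : Ideal.span {1 + 4 * x} = Ideal.span {1 + 4 * y} :=
      congrArg HeightOneSpectrum.asIdeal h
    rw [Ideal.span_singleton_eq_span_singleton] at h1
    exact inj14 e h1
  · rintro v ⟨hv, x, h1, h2, h3⟩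
    refine ⟨x, ⟨?_, h1, h2⟩, HeightOneSpectrum.ext h3.symm⟩
    rw [h3, Ideal.absNorm_span_singleton] at hv
    exact hv

/-- the places of the primes congruent to `1` modulo `4` -/
lemma exists_pm {v : HeightOneSpectrum (𝓞 K)} (hd : ¬ Dy v) : ∃ (ϖ : RR) (h : Pn ϖ),
    plc e h.pr = v := by
  obtain ⟨z, hz, rfl⟩ := exists_plc e v
  have h2 : ¬ z ∣ 2 := by
    intro h3
    apply hd
    show (2 : 𝓞 K) ∈ _
    have h4 : (2 : 𝓞 K) = e 2 := (map_ofNat e 2).symm
    rw [h4, plc_mem]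
    exact h3
  rcases pn_or hz h2 with h | h
  · exact ⟨z, h, rfl⟩
  · refine ⟨-z, h, ?_⟩
    rw [plc_eq]
    exact Associated.neg_left (Associated.refl z)

variable {e} {D : RR} {S : Finset RR} {P : Finset (𝓞 K)}

open scoped Classical in
/-- the class -/
lemma class_iff (hf : Fs S (fun x => x)) (hD : D = ∏ ϖ ∈ S, ϖ) (hP : IsP (e aR) (e D) P)
    {G : 𝓞 K → Prop} (hG : ∀ x : 𝓞 K, Prime (1 + 4 * x) → 1 + 4 * x ∉ P →
      (G x ↔ (MP (insert (1 + 4 * x) P)).det ≠ 0))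
    {v : HeightOneSpectrum (𝓞 K)} (hd : ¬ Dy v) (hv : ∀ p ∈ P, p ∉ v.asIdeal) :
    QG G v ↔ sb v (av P 0) = 0 ∧ (MP P +
      Matrix.diagonal ((fun p : P => sb v (av P (P.equivFin p).succ)) +
        fun p : P => ns (p : 𝓞 K) (-1))).det ≠ 0 := by
  obtain ⟨ϖ, hϖ, rfl⟩ := exists_pm e hd
  rw [av_zero, sb_neg_one hϖ]
  have hsym : ∀ p : P, sb (plc e hϖ.pr : HeightOneSpectrum (𝓞 K)) (av P (P.equivFin p).succ) =
      ns (e ϖ) (p : 𝓞 K) := by
    intro p
    rw [av_succ, Equiv.symm_apply_apply]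
    obtain ⟨q, hq⟩ := e.surjective (p : 𝓞 K)
    have h1 := hv p p.2
    rw [← hq, plc_mem] at h1
    rw [← hq, ns_e]
    exact sb_plc hϖ h1
  have hfun : (fun p : P => sb (plc e hϖ.pr : HeightOneSpectrum (𝓞 K))
      (av P (P.equivFin p).succ)) = fun p : P => ns (e ϖ) (p : 𝓞 K) := funext hsym
  rw [hfun]
  have hm4 : tp ϖ = 0 → Pm ϖ := by
    intro h0
    rcases hϖ.cases with h1 | ⟨p, A, B, h1, -⟩
    · exact h1
    · rw [h1.tp] at h0
      exact absurd h0 one_ne_zero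
  have hS : ϖ ∉ S := by
    intro h1
    apply hv (e ϖ) ((mem_P hf hD hP ϖ).2 (Or.inr h1))
    rw [plc_mem]
  have hnP : Pm ϖ → e ϖ ∉ P := by
    intro _ h1
    apply hv (e ϖ) h1
    rw [plc_mem]
  constructor
  · rintro ⟨x, h1, h2, h3⟩
    obtain ⟨x, rfl⟩ := e.surjective x
    rw [← e14] at h1 h3
    have h4 : Prime (1 + 4 * x) := (MulEquiv.prime_iff e.toMulEquiv).1 h1
    have h5 : plc e hϖ.pr = plc e h4 := HeightOneSpectrum.ext h3
    rw [plc_eq] at h5
    obtain ⟨u, hu⟩ := h5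
    have h6 : ϖ = 1 + 4 * x := by
      rcases isUnit_iff.1 u.isUnit with h6 | h6
      · rw [← hu, h6, mul_one]
      · exfalso
        rw [h6, mul_neg_one] at hu
        have h7 := r4_m4 (ϖ := 1 + 4 * x) ⟨x, rfl⟩
        rw [← hu, map_neg, hϖ.r4] at h7
        exact absurd h7 (by decide)
    have hpm : Pm ϖ := ⟨hϖ.pr, x, h6⟩
    refine ⟨tp_pm hpm, ?_⟩
    rw [← det_twist hf hD hP hpm hS]
    have h8 := (hG (e x) (by rw [← e14]; exact h1) (by rw [← e14, ← h6]; exact hnP hpm)).1 h2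
    rw [← e14, ← h6] at h8
    exact h8
  · rintro ⟨h0, h1⟩
    have hpm := hm4 h0
    rw [← det_twist hf hD hP hpm hS] at h1
    obtain ⟨x, hx⟩ := hpm.m4
    have h2 : Prime (1 + 4 * e x) := by
      rw [← e14, ← hx]
      exact (MulEquiv.prime_iff e.toMulEquiv).2 hϖ.pr
    refine ⟨e x, h2, ?_, ?_⟩
    · refine (hG (e x) h2 ?_).2 ?_
      · rw [← e14, ← hx]
        exact hnP hpm
      · rw [← e14, ← hx]
        exact h1
    · rw [← e14, ← hx]
      rfl

end

end Pool.Agent.H463.PT
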